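import Pool.Agent.Helper867.Residual

set_option autoImplicit false

/-!
The Noetherian argument: shift-invariant subgroups of the free group on `S × ℕ`.
-/

namespace Pool.Agent.Helper867.Noeth

open Polynomial
open scoped commutatorElement

section Splitting

variable {N F' : Type} [Group N] [Group F']

theorem mem_commutator_ker (q : N →* F') [IsFreeGroup q.range] (c : N) (hc : q c = 1)
    (hcc : c ∈ commutator N) : c ∈ ⁅q.ker, (⊤ : Subgroup N)⁆ := by
  classical
  -- a section
  obtain ⟨σ, hσ⟩ : ∃ σ : q.range →* N, ∀ y, q.rangeRestrict (σ y) = y := by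
    choose g hg using fun y : IsFreeGroup.Generators q.range =>
      q.rangeRestrict_surjective (IsFreeGroup.of y)
    refine ⟨IsFreeGroup.lift g, ?_⟩
    intro y
    have : (q.rangeRestrict).comp (IsFreeGroup.lift g) = MonoidHom.id _ := by
      apply IsFreeGroup.ext_hom
      intro a
      simp [hg]
    exact DFunLike.congr_fun this y
  set L : Subgroup N := ⁅q.ker, (⊤ : Subgroup N)⁆ with hL
  have hcen : ∀ k : N, q k = 1 → ∀ n : N, (QuotientGroup.mk k : N ⧸ L) * QuotientGroup.mk n
      = QuotientGroup.mk n * QuotientGroup.mk k := by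
    intro k hk n
    rw [← QuotientGroup.mk_mul, ← QuotientGroup.mk_mul, eq_comm, QuotientGroup.eq]
    have h1 : (n * k)⁻¹ * (k * n) = ⁅k⁻¹, n⁻¹⁆ := by
      rw [commutatorElement_def]; group
    rw [h1]
    exact Subgroup.commutator_mem_commutator (by rw [MonoidHom.mem_ker, map_inv, hk, inv_one])
      (Subgroup.mem_top _)
  have hker : ∀ n : N, q (n * (σ (q.rangeRestrict n))⁻¹) = 1 := by
    intro n
    have h1 := congrArg Subtype.val (hσ (q.rangeRestrict n))
    have h2 : q (σ (q.rangeRestrict n)) = q n := h1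
    rw [map_mul, map_inv, h2, mul_inv_cancel]
  let κ : N →* N ⧸ L :=
    { toFun := fun n => QuotientGroup.mk (n * (σ (q.rangeRestrict n))⁻¹)
      map_one' := by simp
      map_mul' := by
        intro n m
        have e : n * m * (σ (q.rangeRestrict (n * m)))⁻¹ =
          n * (m * (σ (q.rangeRestrict m))⁻¹) * (σ (q.rangeRestrict n))⁻¹ := by
          rw [map_mul, map_mul]; group
        rw [e, QuotientGroup.mk_mul, QuotientGroup.mk_mul, mul_assoc,
          hcen _ (hker m), ← mul_assoc, ← QuotientGroup.mk_mul] }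
  have hcomm : ∀ a b, κ a * κ b = κ b * κ a := by
    intro a b
    exact hcen _ (hker a) _
  have h1 : commutator N ≤ κ.ker := by
    rw [commutator_def, Subgroup.commutator_le]
    intro a _ b _
    rw [MonoidHom.mem_ker, map_commutatorElement, commutatorElement_eq_one_iff_mul_comm]
    exact hcomm a b
  have h2 : κ c = 1 := h1 hcc
  have h3 : κ c = QuotientGroup.mk c := by
    show (QuotientGroup.mk (c * (σ (q.rangeRestrict c))⁻¹) : N ⧸ L) = QuotientGroup.mk c
    have : q.rangeRestrict c = 1 := Subtype.ext hc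
    rw [this, map_one, inv_one, mul_one]
  rw [h3, QuotientGroup.eq_one_iff] at h2
  exact h2

end Splitting

section Ab

variable {S : Type}

/-- the shift endomorphism -/
def shift : FreeGroup (S × ℕ) →* FreeGroup (S × ℕ) := FreeGroup.map (fun p => (p.1, p.2 + 1))

theorem shift_of (x : S) (j : ℕ) : shift (FreeGroup.of (x, j)) = FreeGroup.of (x, j + 1) := by
  unfold shift; simp

open Classical in
/-- abelianization as polynomial vectors -/
noncomputable def ab : FreeGroup (S × ℕ) →* Multiplicative (S → ℤ[X]) :=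
  FreeGroup.lift (fun p => Multiplicative.ofAdd (Pi.single p.1 (X ^ p.2)))

open Classical in
theorem ab_of (x : S) (j : ℕ) :
    (ab (FreeGroup.of (x, j))).toAdd = (Pi.single x (X ^ j) : S → ℤ[X]) := by
  unfold ab; rw [FreeGroup.lift_apply_of]; rfl

theorem ab_shift (r : FreeGroup (S × ℕ)) :
    (ab (shift r)).toAdd = (X : ℤ[X]) • (ab r).toAdd := by
  classical
  induction r using FreeGroup.induction_on with
  | C1 => simp
  | of p =>
    obtain ⟨x, j⟩ := p
    rw [shift_of, ab_of, ab_of, ← Pi.single_smul, smul_eq_mul, pow_succ, mul_comm]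
  | inv_of p h =>
    have e1 : ab (shift (FreeGroup.of p)⁻¹) = (ab (shift (FreeGroup.of p)))⁻¹ := by
      rw [map_inv, map_inv]
    have e2 : ab (FreeGroup.of p)⁻¹ = (ab (FreeGroup.of p))⁻¹ := by rw [map_inv]
    rw [e1, e2, toAdd_inv, toAdd_inv, h, smul_neg]
  | mul a b ha hb =>
    have e1 : ab (shift (a * b)) = ab (shift a) * ab (shift b) := by
      rw [map_mul, map_mul]
    have e2 : ab (a * b) = ab a * ab b := by rw [map_mul]
    rw [e1, e2, toAdd_mul, toAdd_mul, ha, hb, smul_add]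

/-- the class of a word in the free abelian group -/
def fab {σ : Type} (r : FreeGroup σ) : FreeAbelianGroup σ := Additive.ofMul (Abelianization.of r)

theorem fab_one {σ : Type} : fab (1 : FreeGroup σ) = 0 := rfl
theorem fab_of {σ : Type} (p : σ) : fab (FreeGroup.of p) = FreeAbelianGroup.of p := rfl
theorem fab_inv {σ : Type} (r : FreeGroup σ) : fab r⁻¹ = -fab r := rfl
theorem fab_mul {σ : Type} (r r' : FreeGroup σ) : fab (r * r') = fab r + fab r' := rfl
theorem of_fab_eq_zero {σ : Type} (r : FreeGroup σ) (h : fab r = 0) :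
    r ∈ commutator (FreeGroup σ) := by
  have h3 : Abelianization.of r = 1 := h
  rw [← MonoidHom.mem_ker, Abelianization.ker_of] at h3
  exact h3

theorem mem_commutator_of_ab (r : FreeGroup (S × ℕ)) (h : ab r = 1) :
    r ∈ commutator (FreeGroup (S × ℕ)) := by
  classical
  have hcoef : ∀ r : FreeGroup (S × ℕ), ∀ x j, ((ab r).toAdd x).coeff j =
      (FreeAbelianGroup.toFinsupp (fab r)) (x, j) := by
    intro r x j
    induction r using FreeGroup.induction_on with
    | C1 =>
      rw [fab_one, map_zero, map_one]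
      simp
    | of p =>
      obtain ⟨y, k⟩ := p
      rw [ab_of, fab_of, FreeAbelianGroup.toFinsupp_of]
      by_cases hxy : x = y
      · subst hxy
        rw [Pi.single_eq_same, coeff_X_pow, Finsupp.single_apply]
        by_cases hjk : j = k
        · subst hjk; simp
        · rw [if_neg hjk, if_neg]
          intro h; exact hjk (congrArg Prod.snd h).symm
      · rw [Pi.single_eq_of_ne hxy, Finsupp.single_apply, if_neg]
        · simp
        · intro h; exact hxy (congrArg Prod.fst h).symm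
    | inv_of p hp =>
      have e2 : ab (FreeGroup.of p)⁻¹ = (ab (FreeGroup.of p))⁻¹ := by rw [map_inv]
      rw [e2, toAdd_inv, Pi.neg_apply, coeff_neg, hp, fab_inv, map_neg, Finsupp.neg_apply]
    | mul a b ha hb =>
      have e2 : ab (a * b) = ab a * ab b := by rw [map_mul]
      rw [e2, toAdd_mul, Pi.add_apply, coeff_add, ha, hb, fab_mul, map_add, Finsupp.add_apply]
  have h1 : FreeAbelianGroup.toFinsupp (fab r) = 0 := by
    ext ⟨x, j⟩
    rw [← hcoef r x j, h]; simp
  have h2 : fab r = 0 := by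
    apply (FreeAbelianGroup.equivFinsupp (S × ℕ)).injective
    rw [map_zero]; exact h1
  exact of_fab_eq_zero r h2

/-- the submodule attached to a shift-invariant subgroup -/
noncomputable def sub (R : Subgroup (FreeGroup (S × ℕ))) (hR : ∀ r ∈ R, shift r ∈ R) :
    Submodule ℤ[X] (S → ℤ[X]) where
  carrier := {m | ∃ r ∈ R, (ab r).toAdd = m}
  add_mem' := by
    rintro _ _ ⟨r, hr, rfl⟩ ⟨r', hr', rfl⟩
    exact ⟨r * r', R.mul_mem hr hr', by rw [map_mul]; rfl⟩
  zero_mem' := ⟨1, R.one_mem, by rw [map_one]; rfl⟩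
  smul_mem' := by
    have hX : ∀ m : S → ℤ[X], (∃ r ∈ R, (ab r).toAdd = m) → ∃ r ∈ R, (ab r).toAdd = (X : ℤ[X]) • m := by
      rintro _ ⟨r, hr, rfl⟩
      exact ⟨shift r, hR r hr, ab_shift r⟩
    have hC : ∀ (c : ℤ) (m : S → ℤ[X]), (∃ r ∈ R, (ab r).toAdd = m) →
        ∃ r ∈ R, (ab r).toAdd = (C c : ℤ[X]) • m := by
      rintro c _ ⟨r, hr, rfl⟩
      refine ⟨r ^ c, R.zpow_mem hr c, ?_⟩
      rw [map_zpow, toAdd_zpow]
      ext1 x
      simp [Pi.smul_apply, zsmul_eq_mul]
    intro p m hm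
    induction p using Polynomial.induction_on with
    | C a => exact hC a m hm
    | add p q hp hq =>
      rw [add_smul]
      obtain ⟨r, hr, h1⟩ := hp
      obtain ⟨r', hr', h2⟩ := hq
      exact ⟨r * r', R.mul_mem hr hr', by rw [map_mul, toAdd_mul, h1, h2]⟩
    | monomial n a h =>
      have h2 := hX _ h
      have e : (C a * X ^ (n + 1) : ℤ[X]) • m = (X : ℤ[X]) • ((C a * X ^ n : ℤ[X]) • m) := by
        rw [smul_smul]; congr 1; ring
      rw [e]
      exact h2

theorem exists_finite_test [Finite S] (R : Subgroup (FreeGroup (S × ℕ)))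
    (hR : ∀ r ∈ R, shift r ∈ R) :
    ∃ T : Finset (FreeGroup (S × ℕ)), (∀ r ∈ T, r ∈ R) ∧
      ∀ R₀ : Subgroup (FreeGroup (S × ℕ)), (∀ r ∈ R₀, shift r ∈ R₀) → (∀ r ∈ T, r ∈ R₀) →
        ∀ r ∈ R, ∃ r₀ ∈ R₀, r * r₀⁻¹ ∈ commutator (FreeGroup (S × ℕ)) := by
  classical
  have hfg : (sub R hR).FG := IsNoetherian.noetherian _
  obtain ⟨gens, hgens⟩ := hfg
  have hmem : ∀ m ∈ gens, ∃ r ∈ R, (ab r).toAdd = m := by
    intro m hm
    have : m ∈ sub R hR := by rw [← hgens]; exact Submodule.subset_span hm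
    exact this
  choose! g hgR hgm using hmem
  refine ⟨gens.image g, ?_, ?_⟩
  · intro r hr
    obtain ⟨m, hm, rfl⟩ := Finset.mem_image.mp hr
    exact hgR m hm
  · intro R₀ hR₀ hT r hr
    have hle : sub R hR ≤ sub R₀ hR₀ := by
      rw [← hgens, Submodule.span_le]
      intro m hm
      exact ⟨g m, hT _ (Finset.mem_image_of_mem g hm), hgm m hm⟩
    have h1 : (ab r).toAdd ∈ sub R hR := ⟨r, hr, rfl⟩
    obtain ⟨r₀, hr₀, h2⟩ := hle h1
    refine ⟨r₀, hr₀, mem_commutator_of_ab _ ?_⟩
    have h3 : ab r₀ = ab r := Multiplicative.toAdd.injective h2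
    rw [map_mul, map_inv, h3, mul_inv_cancel]

theorem ker_le_ker [Finite S] {F' : Type} [Group F'] (q : FreeGroup (S × ℕ) →* F')
    [IsFreeGroup q.range] (hq : ∀ r, q r = 1 → q (shift r) = 1) :
    ∃ T : Finset (FreeGroup (S × ℕ)), (∀ r ∈ T, q r = 1) ∧
      ∀ (β : Type) (q₀ : FreeGroup (S × ℕ) →* FreeGroup β),
        (∀ r, q₀ r = 1 → q₀ (shift r) = 1) → (∀ r, q₀ r = 1 → q r = 1) →
        (∀ r ∈ T, q₀ r = 1) → ∀ r, q r = 1 → q₀ r = 1 := by
  obtain ⟨T, hT, hmain⟩ := exists_finite_test q.ker (fun r hr => hq r hr)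
  refine ⟨T, hT, ?_⟩
  intro β q₀ hshift hle hT0 r hr
  have hK : Subgroup.map q₀ q.ker = ⊥ := by
    apply Residual.eq_bot_of_le_commutator
    rintro _ ⟨r, hr, rfl⟩
    obtain ⟨r₀, hr₀, hc⟩ := hmain q₀.ker (fun r hr => hshift r hr) hT0 r hr
    have hr₀' : q₀ r₀ = 1 := hr₀
    have h1 : q (r * r₀⁻¹) = 1 := by
      have h2 : q r = 1 := hr
      rw [map_mul, map_inv, h2, hle r₀ hr₀', inv_one, mul_one]
    have h3 := mem_commutator_ker q _ h1 hc
    have h4 : q₀ r = q₀ (r * r₀⁻¹) := by rw [map_mul, map_inv, hr₀', inv_one, mul_one]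
    rw [h4]
    have h5 : q₀ (r * r₀⁻¹) ∈ Subgroup.map q₀ ⁅q.ker, (⊤ : Subgroup (FreeGroup (S × ℕ)))⁆ :=
      Subgroup.mem_map_of_mem _ h3
    rw [Subgroup.map_commutator] at h5
    exact Subgroup.commutator_mono le_rfl le_top h5
  have h6 : q₀ r ∈ Subgroup.map q₀ q.ker := Subgroup.mem_map_of_mem _ hr
  rw [hK, Subgroup.mem_bot] at h6
  exact h6

end Ab

end Pool.Agent.Helper867.Noeth
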