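import Mathlib

set_option autoImplicit false

/-!
The finite rank free group with automorphism that carries a partial automorphism.
-/

namespace Pool.Agent.Helper867.Tower

variable {α : Type}

/-- generators: letters `x a`, letters `v a` and one letter `u` -/
abbrev Gen (α : Type) := α ⊕ (α ⊕ Unit)

/-- the free group of finite rank -/
abbrev PH (α : Type) := FreeGroup (Gen α)

/-- letter -/
def gx (a : α) : PH α := FreeGroup.of (Sum.inl a)
/-- letter -/
def gv (a : α) : PH α := FreeGroup.of (Sum.inr (Sum.inl a))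
/-- letter -/
def gu : PH α := FreeGroup.of (Sum.inr (Sum.inr ()))

open Classical in
/-- forward map of the elementary automorphism -/
noncomputable def tauF (D : α → Prop) : PH α →* PH α :=
  FreeGroup.lift (Sum.elim (fun a => if D a then gx a else (gx a)⁻¹ * gv a)
    (Sum.elim (fun a => gu * gv a * gu⁻¹) (fun _ => gu)))

open Classical in
/-- backward map of the elementary automorphism -/
noncomputable def tauB (D : α → Prop) : PH α →* PH α :=
  FreeGroup.lift (Sum.elim (fun a => if D a then gx a else (gu⁻¹ * gv a * gu) * (gx a)⁻¹)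
    (Sum.elim (fun a => gu⁻¹ * gv a * gu) (fun _ => gu)))

theorem tauF_x_pos (D : α → Prop) (a : α) (h : D a) : tauF D (gx a) = gx a := by
  unfold tauF gx; rw [FreeGroup.lift_apply_of]; simp [h, gx]
theorem tauF_x_neg (D : α → Prop) (a : α) (h : ¬ D a) : tauF D (gx a) = (gx a)⁻¹ * gv a := by
  unfold tauF gx; rw [FreeGroup.lift_apply_of]; simp [h, gx]
theorem tauF_v (D : α → Prop) (a : α) : tauF D (gv a) = gu * gv a * gu⁻¹ := by
  unfold tauF gv; rw [FreeGroup.lift_apply_of]; simp [gv]
theorem tauF_u (D : α → Prop) : tauF D (gu : PH α) = gu := by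
  unfold tauF gu; rw [FreeGroup.lift_apply_of]; simp [gu]
theorem tauB_x_pos (D : α → Prop) (a : α) (h : D a) : tauB D (gx a) = gx a := by
  unfold tauB gx; rw [FreeGroup.lift_apply_of]; simp [h, gx]
theorem tauB_x_neg (D : α → Prop) (a : α) (h : ¬ D a) :
    tauB D (gx a) = (gu⁻¹ * gv a * gu) * (gx a)⁻¹ := by
  unfold tauB gx; rw [FreeGroup.lift_apply_of]; simp [h, gx]
theorem tauB_v (D : α → Prop) (a : α) : tauB D (gv a) = gu⁻¹ * gv a * gu := by
  unfold tauB gv; rw [FreeGroup.lift_apply_of]; simp [gv]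
theorem tauB_u (D : α → Prop) : tauB D (gu : PH α) = gu := by
  unfold tauB gu; rw [FreeGroup.lift_apply_of]; simp [gu]

/-- homs out of `PH α` agree if they agree on letters -/
theorem hom_ext' {H : Type*} [Group H] (f g : PH α →* H) (hx : ∀ a, f (gx a) = g (gx a))
    (hv : ∀ a, f (gv a) = g (gv a)) (hu : f gu = g gu) : f = g := by
  ext z
  rcases z with a | a | ⟨⟩
  · exact hx a
  · exact hv a
  · exact hu

/-- the elementary automorphism -/
noncomputable def tau (D : α → Prop) : PH α ≃* PH α :=
  MonoidHom.toMulEquiv (tauF D) (tauB D)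
    (by
      apply hom_ext'
      · intro a
        by_cases h : D a
        · simp [tauF_x_pos D a h, tauB_x_pos D a h]
        · simp only [MonoidHom.comp_apply, tauF_x_neg D a h, map_mul, map_inv, tauB_x_neg D a h,
            tauB_v, MonoidHom.id_apply]
          group
      · intro a
        simp only [MonoidHom.comp_apply, tauF_v, map_mul, map_inv, tauB_v, tauB_u,
          MonoidHom.id_apply]
        group
      · simp [tauF_u, tauB_u])
    (by
      apply hom_ext'
      · intro a
        by_cases h : D a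
        · simp [tauF_x_pos D a h, tauB_x_pos D a h]
        · simp only [MonoidHom.comp_apply, tauF_x_neg D a h, map_mul, map_inv, tauB_x_neg D a h,
            tauF_v, tauF_u, MonoidHom.id_apply]
          group
      · intro a
        simp only [MonoidHom.comp_apply, tauB_v, map_mul, map_inv, tauF_v, tauF_u,
          MonoidHom.id_apply]
        group
      · simp [tauF_u, tauB_u])

/-- the inclusion of the `x`-part -/
noncomputable def hat : FreeGroup α →* PH α := FreeGroup.map Sum.inl

theorem hat_of (a : α) : hat (FreeGroup.of a) = gx a := by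
  unfold hat gx; simp

theorem hat_injective : Function.Injective (hat : FreeGroup α →* PH α) :=
  FreeGroup.map_injective Sum.inl_injective

/-- an endomorphism of the `x`-part extended by the identity -/
noncomputable def ext1 (Ψ : FreeGroup α →* FreeGroup α) : PH α →* PH α :=
  FreeGroup.lift (Sum.elim (fun a => hat (Ψ (FreeGroup.of a))) (Sum.elim gv (fun _ => gu)))

theorem ext1_x (Ψ : FreeGroup α →* FreeGroup α) (a : α) :
    ext1 Ψ (gx a) = hat (Ψ (FreeGroup.of a)) := by
  unfold ext1 gx; rw [FreeGroup.lift_apply_of]; simp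
theorem ext1_v (Ψ : FreeGroup α →* FreeGroup α) (a : α) : ext1 Ψ (gv a) = gv a := by
  unfold ext1 gv; rw [FreeGroup.lift_apply_of]; simp [gv]
theorem ext1_u (Ψ : FreeGroup α →* FreeGroup α) : ext1 Ψ gu = gu := by
  unfold ext1 gu; rw [FreeGroup.lift_apply_of]; simp [gu]

theorem ext1_hat (Ψ : FreeGroup α →* FreeGroup α) (w : FreeGroup α) :
    ext1 Ψ (hat w) = hat (Ψ w) := by
  have : (ext1 Ψ).comp hat = hat.comp Ψ := by
    ext a
    simp only [MonoidHom.comp_apply, hat_of, ext1_x]
  exact DFunLike.congr_fun this w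

/-- an automorphism of the `x`-part extended by the identity -/
noncomputable def extE (Ψ : FreeGroup α ≃* FreeGroup α) : PH α ≃* PH α :=
  MonoidHom.toMulEquiv (ext1 Ψ.toMonoidHom) (ext1 Ψ.symm.toMonoidHom)
    (by
      apply hom_ext'
      · intro a
        simp [MonoidHom.comp_apply, ext1_x, ext1_hat, hat_of]
      · intro a
        simp [MonoidHom.comp_apply, ext1_v]
      · simp [MonoidHom.comp_apply, ext1_u])
    (by
      apply hom_ext'
      · intro a
        simp [MonoidHom.comp_apply, ext1_x, ext1_hat, hat_of]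
      · intro a
        simp [MonoidHom.comp_apply, ext1_v]
      · simp [MonoidHom.comp_apply, ext1_u])

/-- the automorphism `Φ` -/
noncomputable def Phi (D : α → Prop) (Ψ : FreeGroup α ≃* FreeGroup α) : PH α ≃* PH α :=
  (tau D).trans (extE Ψ)

theorem Phi_x_pos (D : α → Prop) (Ψ : FreeGroup α ≃* FreeGroup α) (a : α) (h : D a) :
    Phi D Ψ (gx a) = hat (Ψ (FreeGroup.of a)) := by
  show ext1 Ψ.toMonoidHom (tauF D (gx a)) = _
  rw [tauF_x_pos D a h, ext1_x]; rfl

theorem Phi_x_neg (D : α → Prop) (Ψ : FreeGroup α ≃* FreeGroup α) (a : α) (h : ¬ D a) :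
    Phi D Ψ (gx a) = (hat (Ψ (FreeGroup.of a)))⁻¹ * gv a := by
  show ext1 Ψ.toMonoidHom (tauF D (gx a)) = _
  rw [tauF_x_neg D a h, map_mul, map_inv, ext1_x, ext1_v]; rfl

theorem Phi_v (D : α → Prop) (Ψ : FreeGroup α ≃* FreeGroup α) (a : α) :
    Phi D Ψ (gv a) = gu * gv a * gu⁻¹ := by
  show ext1 Ψ.toMonoidHom (tauF D (gv a)) = _
  rw [tauF_v, map_mul, map_mul, map_inv, ext1_u, ext1_v]

theorem Phi_u (D : α → Prop) (Ψ : FreeGroup α ≃* FreeGroup α) :
    Phi D Ψ (gu : PH α) = gu := by
  show ext1 Ψ.toMonoidHom (tauF D gu) = _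
  rw [tauF_u, ext1_u]

section Retraction

variable {G : Type} [Group G] (D : α → Prop) (Ψ : FreeGroup α ≃* FreeGroup α)
  (i : FreeGroup α →* G) (t : G)

/-- the map to `G` on the free group -/
noncomputable def rho : PH α →* G :=
  FreeGroup.lift (Sum.elim (fun a => i (FreeGroup.of a))
    (Sum.elim (fun a => i (Ψ (FreeGroup.of a)) * (t * i (FreeGroup.of a) * t⁻¹)) (fun _ => t)))

theorem rho_x (a : α) : rho Ψ i t (gx a) = i (FreeGroup.of a) := by
  unfold rho gx; rw [FreeGroup.lift_apply_of]; simp
theorem rho_v (a : α) : rho Ψ i t (gv a) =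
    i (Ψ (FreeGroup.of a)) * (t * i (FreeGroup.of a) * t⁻¹) := by
  unfold rho gv; rw [FreeGroup.lift_apply_of]; simp
theorem rho_u : rho Ψ i t gu = t := by
  unfold rho gu; rw [FreeGroup.lift_apply_of]; simp

theorem rho_hat (w : FreeGroup α) : rho Ψ i t (hat w) = i w := by
  have : (rho Ψ i t).comp hat = i := by
    ext a
    simp only [MonoidHom.comp_apply, hat_of, rho_x]
  exact DFunLike.congr_fun this w

theorem rho_Phi (hD : ∀ a, D a → i (Ψ (FreeGroup.of a)) = t * i (FreeGroup.of a) * t⁻¹)
    (z : PH α) : rho Ψ i t (Phi D Ψ z) = t * rho Ψ i t z * t⁻¹ := by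
  have : (rho Ψ i t).comp (Phi D Ψ).toMonoidHom =
      ((MulAut.conj t).toMonoidHom).comp (rho Ψ i t) := by
    apply hom_ext'
    · intro a
      show rho Ψ i t (Phi D Ψ (gx a)) = t * rho Ψ i t (gx a) * t⁻¹
      by_cases h : D a
      · rw [Phi_x_pos D Ψ a h, rho_hat, rho_x, hD a h]
      · rw [Phi_x_neg D Ψ a h, map_mul, map_inv, rho_hat, rho_x, rho_v]
        group
    · intro a
      show rho Ψ i t (Phi D Ψ (gv a)) = t * rho Ψ i t (gv a) * t⁻¹
      rw [Phi_v, map_mul, map_mul, map_inv, rho_u]
    · show rho Ψ i t (Phi D Ψ gu) = t * rho Ψ i t gu * t⁻¹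
      rw [Phi_u, rho_u]
      group
  exact DFunLike.congr_fun this z

end Retraction

end Pool.Agent.Helper867.Tower
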