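import Pool.Agent.Helper867.Density
import Pool.Agent.Helper867.Tower
import Pool.Agent.Helper867.Noeth

set_option autoImplicit false

/-!
Assembly: the approximating groups and the choice of a good finite part of the basis.
-/

namespace Pool.Agent.Helper867.Assemble

open Pool.Agent.Helper867 Density Tower Noeth

variable {X F : Type} [Group F] (b : FreeGroupBasis X F)

/-- inclusion of free groups on finite parts -/
def incMap {A B : Finset X} (h : A ⊆ B) : FreeGroup A →* FreeGroup B :=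
  FreeGroup.map (fun x => (⟨x.1, h x.2⟩ : B))

theorem incMap_of {A B : Finset X} (h : A ⊆ B) (x : A) :
    incMap h (FreeGroup.of x) = FreeGroup.of (⟨x.1, h x.2⟩ : B) := by
  unfold incMap; simp

theorem incl_incMap {A B : Finset X} (h : A ⊆ B) (w : FreeGroup A) :
    incl b B (incMap h w) = incl b A w := by
  have : (incl b B).comp (incMap h) = incl b A := by
    ext x
    simp only [MonoidHom.comp_apply, incMap_of, incl_of]
  exact DFunLike.congr_fun this w

theorem incl_range_mono {A B : Finset X} (h : A ⊆ B) : (incl b A).range ≤ (incl b B).range := by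
  rintro _ ⟨w, rfl⟩
  exact ⟨incMap h w, incl_incMap b h w⟩

theorem exists_supp (f : F) : ∃ A : Finset X, f ∈ (incl b A).range := by
  classical
  refine Schreier.basis_induction b (C := fun f => ∃ A : Finset X, f ∈ (incl b A).range)
    ?_ ?_ ?_ ?_ f
  · exact ⟨∅, Subgroup.one_mem _⟩
  · intro x
    exact ⟨{x}, FreeGroup.of ⟨x, Finset.mem_singleton_self x⟩, incl_of b _ _⟩
  · intro x
    exact ⟨{x}, Subgroup.inv_mem _ ⟨FreeGroup.of ⟨x, Finset.mem_singleton_self x⟩, incl_of b _ _⟩⟩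
  · rintro x y ⟨A, hA⟩ ⟨B, hB⟩
    exact ⟨A ∪ B, Subgroup.mul_mem _ (incl_range_mono b Finset.subset_union_left hA)
      (incl_range_mono b Finset.subset_union_right hB)⟩

theorem exists_supp_finset {ι : Type} (s : Finset ι) (f : ι → F) :
    ∃ A : Finset X, ∀ i ∈ s, f i ∈ (incl b A).range := by
  classical
  choose A hA using fun i => exists_supp b (f i)
  refine ⟨s.biUnion A, ?_⟩
  intro i hi
  exact incl_range_mono b (Finset.subset_biUnion_of_mem A hi) (hA i)

variable (Θ : MulAut F)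

/-- the domain predicate -/
def Dom (X₀ : Finset X) (x : X₀) : Prop := Θ (b x) ∈ (incl b X₀).range

/-- the automorphism extending the partial automorphism -/
noncomputable def Psi (X₀ : Finset X) : FreeGroup X₀ ≃* FreeGroup X₀ :=
  (exists_aut b X₀ Θ).choose

theorem Psi_spec (X₀ : Finset X) (x : X₀) (hx : Dom b Θ X₀ x) :
    incl b X₀ (Psi b Θ X₀ (FreeGroup.of x)) = Θ (b x) :=
  (exists_aut b X₀ Θ).choose_spec x hx

/-- the automorphism of the big free group -/
noncomputable def PhiA (X₀ : Finset X) : MulAut (PH X₀) := Phi (Dom b Θ X₀) (Psi b Θ X₀)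

theorem good_words {A X₀ : Finset X} (h : A ⊆ X₀)
    (hA : ∀ x ∈ A, Θ (b x) ∈ (incl b X₀).range) (w : FreeGroup A) :
    PhiA b Θ X₀ (hat (incMap h w)) = hat (Psi b Θ X₀ (incMap h w)) ∧
      incl b X₀ (Psi b Θ X₀ (incMap h w)) = Θ (incl b X₀ (incMap h w)) := by
  constructor
  · have : ((PhiA b Θ X₀).toMonoidHom.comp hat).comp (incMap h) =
      (hat.comp (Psi b Θ X₀).toMonoidHom).comp (incMap h) := by
      ext x
      show PhiA b Θ X₀ (hat (incMap h (FreeGroup.of x))) =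
        hat (Psi b Θ X₀ (incMap h (FreeGroup.of x)))
      rw [incMap_of, hat_of]
      exact Phi_x_pos _ _ _ (hA x.1 x.2)
    exact DFunLike.congr_fun this w
  · have : ((incl b X₀).comp (Psi b Θ X₀).toMonoidHom).comp (incMap h) =
      ((Θ.toMonoidHom).comp (incl b X₀)).comp (incMap h) := by
      ext x
      show incl b X₀ (Psi b Θ X₀ (incMap h (FreeGroup.of x))) =
        Θ (incl b X₀ (incMap h (FreeGroup.of x)))
      rw [incMap_of, incl_of]
      exact Psi_spec b Θ X₀ _ (hA x.1 x.2)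
    exact DFunLike.congr_fun this w

variable (S : Finset X)

/-- the words `Θ^j x` -/
noncomputable def q : FreeGroup (S × ℕ) →* F := FreeGroup.lift (fun p => (Θ ^ p.2) (b p.1))

theorem q_of (x : S) (j : ℕ) : q b Θ S (FreeGroup.of (x, j)) = (Θ ^ j) (b x) := by
  unfold q; simp

theorem q_shift (r : FreeGroup (S × ℕ)) : q b Θ S (shift r) = Θ (q b Θ S r) := by
  have : (q b Θ S).comp shift = (Θ.toMonoidHom).comp (q b Θ S) := by
    ext ⟨x, j⟩
    show q b Θ S (shift (FreeGroup.of (x, j))) = Θ (q b Θ S (FreeGroup.of (x, j)))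
    rw [shift_of, q_of, q_of, pow_succ']
    rfl
  exact DFunLike.congr_fun this r

variable {S}

/-- the words `Φ^j x` -/
noncomputable def q₀ {X₀ : Finset X} (hS : S ⊆ X₀) : FreeGroup (S × ℕ) →* PH X₀ :=
  FreeGroup.lift (fun p => (PhiA b Θ X₀ ^ p.2) (gx (⟨p.1.1, hS p.1.2⟩ : X₀)))

theorem q₀_of {X₀ : Finset X} (hS : S ⊆ X₀) (x : S) (j : ℕ) :
    q₀ b Θ hS (FreeGroup.of (x, j)) = (PhiA b Θ X₀ ^ j) (gx (⟨x.1, hS x.2⟩ : X₀)) := by
  unfold q₀; simp

theorem q₀_shift {X₀ : Finset X} (hS : S ⊆ X₀) (r : FreeGroup (S × ℕ)) :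
    q₀ b Θ hS (shift r) = PhiA b Θ X₀ (q₀ b Θ hS r) := by
  have : (q₀ b Θ hS).comp shift = (PhiA b Θ X₀).toMonoidHom.comp (q₀ b Θ hS) := by
    ext ⟨x, j⟩
    show q₀ b Θ hS (shift (FreeGroup.of (x, j))) =
      PhiA b Θ X₀ (q₀ b Θ hS (FreeGroup.of (x, j)))
    rw [shift_of, q₀_of, q₀_of, pow_succ']
    rfl
  exact DFunLike.congr_fun this r

theorem transfer (r : FreeGroup (S × ℕ)) : ∃ A : Finset X, ∀ (X₀ : Finset X) (hS : S ⊆ X₀),
    A ⊆ X₀ → ∃ z : FreeGroup X₀, incl b X₀ z = q b Θ S r ∧ hat z = q₀ b Θ hS r := by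
  classical
  have hbase : ∀ (x : S) (j : ℕ), ∃ A : Finset X, ∀ (X₀ : Finset X) (hS : S ⊆ X₀),
    A ⊆ X₀ → ∃ z : FreeGroup X₀, incl b X₀ z = (Θ ^ j) (b x) ∧
      hat z = (PhiA b Θ X₀ ^ j) (gx (⟨x.1, hS x.2⟩ : X₀)) := by
    intro x j
    induction j with
    | zero =>
      refine ⟨∅, fun X₀ hS _ => ⟨FreeGroup.of ⟨x.1, hS x.2⟩, ?_, ?_⟩⟩
      · rw [incl_of]; simp
      · rw [hat_of]; simp
    | succ j ih =>
      obtain ⟨A, hA⟩ := ih
      obtain ⟨B, w, hw⟩ := exists_supp b ((Θ ^ j) (b x))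
      obtain ⟨C, hC⟩ := exists_supp_finset b B (fun y => Θ (b y))
      refine ⟨A ∪ B ∪ C, fun X₀ hS hsub => ?_⟩
      have hAX : A ⊆ X₀ := fun y hy => hsub (by simp [hy])
      have hBX : B ⊆ X₀ := fun y hy => hsub (by simp [hy])
      have hCX : C ⊆ X₀ := fun y hy => hsub (by simp [hy])
      obtain ⟨z, hz1, hz2⟩ := hA X₀ hS hAX
      have hzw : z = incMap hBX w := by
        apply incl_injective b X₀
        rw [incl_incMap, hw, hz1]
      obtain ⟨h1, h2⟩ := good_words b Θ hBX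
        (fun y hy => incl_range_mono b hCX (hC y hy)) w
      refine ⟨Psi b Θ X₀ z, ?_, ?_⟩
      · rw [hzw, h2, ← hzw, hz1, pow_succ']; rfl
      · rw [hzw, ← h1, ← hzw, hz2, pow_succ']; rfl
  induction r using FreeGroup.induction_on with
  | C1 => exact ⟨∅, fun X₀ hS _ => ⟨1, by simp, by simp⟩⟩
  | of p =>
    obtain ⟨x, j⟩ := p
    obtain ⟨A, hA⟩ := hbase x j
    refine ⟨A, fun X₀ hS h => ?_⟩
    obtain ⟨z, h1, h2⟩ := hA X₀ hS h
    exact ⟨z, by rw [q_of]; exact h1, by rw [q₀_of]; exact h2⟩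
  | inv_of p ih =>
    obtain ⟨A, hA⟩ := ih
    refine ⟨A, fun X₀ hS h => ?_⟩
    obtain ⟨z, h1, h2⟩ := hA X₀ hS h
    exact ⟨z⁻¹, by rw [map_inv, map_inv, h1], by rw [map_inv, map_inv, h2]⟩
  | mul r r' ih ih' =>
    obtain ⟨A, hA⟩ := ih
    obtain ⟨A', hA'⟩ := ih'
    refine ⟨A ∪ A', fun X₀ hS h => ?_⟩
    obtain ⟨z, h1, h2⟩ := hA X₀ hS (fun y hy => h (by simp [hy]))
    obtain ⟨z', h1', h2'⟩ := hA' X₀ hS (fun y hy => h (by simp [hy]))
    exact ⟨z * z', by rw [map_mul, map_mul, h1, h1'], by rw [map_mul, map_mul, h2, h2']⟩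

/-- The key statement: for a suitable finite part `X₀` of the basis, every relation between the
`Θ^j x` holds between the `Φ^j x`. -/
theorem exists_good (S : Finset X)
    (hker : ∀ (X₀ : Finset X) (hS : S ⊆ X₀) (r : FreeGroup (S × ℕ)),
      q₀ b Θ hS r = 1 → q b Θ S r = 1) :
    ∃ (X₀ : Finset X) (hS : S ⊆ X₀), ∀ r : FreeGroup (S × ℕ),
      q b Θ S r = 1 → q₀ b Θ hS r = 1 := by
  classical
  have : IsFreeGroup F := b.isFreeGroup
  obtain ⟨T, hT, hmain⟩ := ker_le_ker (q b Θ S) (fun r hr => by rw [q_shift, hr, map_one])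
  choose A hA using fun r : FreeGroup (S × ℕ) => transfer b Θ r
  refine ⟨S ∪ T.biUnion A, Finset.subset_union_left, ?_⟩
  apply hmain
  · intro r hr; rw [q₀_shift, hr, map_one]
  · exact hker _ _
  · intro r hr
    obtain ⟨z, h1, h2⟩ := hA r (S ∪ T.biUnion A) Finset.subset_union_left
      ((Finset.subset_biUnion_of_mem A hr).trans Finset.subset_union_right)
    rw [hT r hr] at h1
    have hz : z = 1 := incl_injective b _ (by rw [h1, map_one])
    rw [← h2, hz, map_one]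

end Pool.Agent.Helper867.Assemble
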