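import Pool.Agent.Helper867.Schreier

set_option autoImplicit false

namespace Pool.Agent.Helper867.Density

open Function Pool.Agent.Helper867

variable {X : Type} {F : Type} [Group F] (b : FreeGroupBasis X F) (X₀ : Finset X)

/-- evaluation of words in a finite part of the basis -/
noncomputable def incl : FreeGroup X₀ →* F := FreeGroup.lift (fun x => b x)

theorem incl_of (x : X₀) : incl b X₀ (FreeGroup.of x) = b x := by
  unfold incl; simp

theorem incl_injective : Function.Injective (incl b X₀) := by
  have h : incl b X₀ = (b.repr.symm : FreeGroup X →* F).comp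
      (FreeGroup.map (Subtype.val : X₀ → X)) := by
    ext x
    simp only [incl_of]
    simp
    rfl
  rw [h]
  exact b.repr.symm.injective.comp (FreeGroup.map_injective Subtype.val_injective)

theorem exists_aut (Θ : F ≃* F) : ∃ Ψ : FreeGroup X₀ ≃* FreeGroup X₀,
    ∀ x : X₀, Θ (b x) ∈ (incl b X₀).range → incl b X₀ (Ψ (FreeGroup.of x)) = Θ (b x) := by
  classical
  obtain ⟨ι, c, j, hj, hc⟩ := Schreier.exists_basis (b.map Θ) (incl b X₀).range
  let e1 : FreeGroup X₀ ≃* (incl b X₀).range := MonoidHom.ofInjective (incl_injective b X₀)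
  let e0 : FreeGroup ι ≃* FreeGroup X₀ := c.repr.symm.trans e1.symm
  have he0 : ∀ i, incl b X₀ (e0 (FreeGroup.of i)) = c i := by
    intro i
    show incl b X₀ (e1.symm (c i)) = c i
    have h := e1.apply_symm_apply (c i)
    have h2 := congrArg Subtype.val h
    exact h2
  let ε₀ : ι ≃ X₀ := Equiv.ofFreeGroupEquiv e0
  have : Fintype ι := Fintype.ofEquiv _ ε₀.symm
  have hcard : Fintype.card X₀ = (Finset.univ : Finset ι).card := by
    rw [Finset.card_univ]; exact (Fintype.card_congr ε₀).symm
  let f : X₀ → ι := fun x => if h : b.map Θ x ∈ (incl b X₀).range then j ⟨x, h⟩ else ε₀.symm x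
  let s : Finset X₀ := Finset.univ.filter (fun x => b.map Θ x ∈ (incl b X₀).range)
  have hfs : Set.InjOn f s := by
    intro x hx y hy hxy
    simp only [s, Finset.coe_filter, Finset.mem_univ, true_and, Set.mem_ofPred_eq] at hx hy
    simp only [f, dif_pos hx, dif_pos hy] at hxy
    have h5 : (x : X) = y := congrArg (fun z => z.1) (hj hxy)
    exact Subtype.ext h5
  obtain ⟨g, hg⟩ := Finset.exists_equiv_extend_of_card_eq hcard (s := s) (f := f)
    (Finset.subset_univ _) hfs
  let g' : X₀ ≃ ι := g.trans (Equiv.subtypeUnivEquiv (fun x => Finset.mem_univ x))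
  refine ⟨(FreeGroup.freeGroupCongr g').trans e0, ?_⟩
  intro x hx
  have hx' : b.map Θ x ∈ (incl b X₀).range := by simpa using hx
  have h1 : g' x = j ⟨x, hx'⟩ := by
    have h2 : ((g x : _) : ι) = f x := hg x (by
      simp only [s, Finset.mem_filter, Finset.mem_univ, true_and]; exact hx')
    have h3 : g' x = f x := h2
    rw [h3]; simp only [f, dif_pos hx']
  have h4 : ((FreeGroup.freeGroupCongr g').trans e0) (FreeGroup.of x) = e0 (FreeGroup.of (g' x)) := by
    simp
  rw [h4, he0, h1, hc]
  rfl

end Pool.Agent.Helper867.Density
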