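import Pool.Agent.Helper867.Assemble

set_option autoImplicit false

/-!
Every finitely generated free-by-cyclic group embeds in a (finitely generated free)-by-cyclic group.
-/

namespace Pool.Agent.Helper867.Final

open Pool.Agent.Helper867 Density Tower Noeth Assemble

theorem conj_zpow {P G : Type} [Group P] [Group G] (Φ : MulAut P) (ρ : P →* G) (t : G)
    (h : ∀ z, ρ (Φ z) = t * ρ z * t⁻¹) (n : ℤ) : ∀ z, ρ ((Φ ^ n) z) = t ^ n * ρ z * (t ^ n)⁻¹ := by
  have hinv : ∀ z, ρ (Φ⁻¹ z) = t⁻¹ * ρ z * t := by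
    intro z
    have h1 := h (Φ⁻¹ z)
    have h2 : Φ (Φ⁻¹ z) = z := MulEquiv.apply_symm_apply Φ z
    rw [h2] at h1
    rw [h1]; group
  induction n using Int.induction_on with
  | zero => intro z; simp
  | succ n ih =>
    intro z
    rw [zpow_add_one, zpow_add_one, MulAut.mul_apply, ih, h]
    group
  | pred n ih =>
    intro z
    rw [zpow_sub_one, zpow_sub_one, MulAut.mul_apply, ih, hinv]
    group

section NormalForm

variable {σ : Type}

/-- the stable letter -/
def T : FreeGroup (σ ⊕ Unit) := FreeGroup.of (Sum.inr ())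

/-- the positive part -/
def iota : FreeGroup (σ × ℕ) →* FreeGroup (σ ⊕ Unit) :=
  FreeGroup.lift (fun p => T ^ p.2 * FreeGroup.of (Sum.inl p.1) * (T ^ p.2)⁻¹)

theorem iota_of (x : σ) (j : ℕ) : iota (FreeGroup.of (x, j)) =
    T ^ j * FreeGroup.of (Sum.inl x) * (T ^ j)⁻¹ := by
  unfold iota; simp

theorem iota_shift (r : FreeGroup (σ × ℕ)) : iota (shift r) = T * iota r * T⁻¹ := by
  have : iota.comp shift = (MulAut.conj (T : FreeGroup (σ ⊕ Unit))).toMonoidHom.comp iota := by
    ext ⟨x, j⟩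
    show iota (shift (FreeGroup.of (x, j))) = T * iota (FreeGroup.of (x, j)) * T⁻¹
    rw [shift_of, iota_of, iota_of, pow_succ']
    group
  exact DFunLike.congr_fun this r

theorem iota_shift_iter (e : ℕ) (r : FreeGroup (σ × ℕ)) :
    iota (shift^[e] r) = T ^ e * iota r * (T ^ e)⁻¹ := by
  induction e with
  | zero => simp
  | succ e ih =>
    rw [Function.iterate_succ_apply', iota_shift, ih, pow_succ']
    group

theorem normal_form (w : FreeGroup (σ ⊕ Unit)) :
    ∃ (m : ℕ) (n : FreeGroup (σ × ℕ)) (k : ℤ), w = (T ^ m)⁻¹ * iota n * T ^ k := by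
  induction w using FreeGroup.induction_on with
  | C1 => exact ⟨0, 1, 0, by simp⟩
  | of z =>
    rcases z with x | ⟨⟩
    · exact ⟨0, FreeGroup.of (x, 0), 0, by rw [iota_of]; simp⟩
    · exact ⟨0, 1, 1, by simp [T]⟩
  | inv_of z _ =>
    rcases z with x | ⟨⟩
    · exact ⟨0, (FreeGroup.of (x, 0))⁻¹, 0, by rw [map_inv, iota_of]; simp⟩
    · exact ⟨0, 1, -1, by simp [T]⟩
  | mul x y hx hy =>
    obtain ⟨m, n, k, rfl⟩ := hx
    obtain ⟨m', n', k', rfl⟩ := hy
    obtain ⟨e, he | he⟩ := Int.eq_nat_or_neg (k - m')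
    · refine ⟨m, n * shift^[e] n', e + k', ?_⟩
      have hk : k = e + m' := by omega
      rw [map_mul, iota_shift_iter, hk, zpow_add, zpow_add, zpow_natCast, zpow_natCast]
      group
    · refine ⟨m + e, shift^[e] n * n', k', ?_⟩
      have hk : k = -(e : ℤ) + m' := by omega
      rw [map_mul, iota_shift_iter, hk, zpow_add, zpow_neg, zpow_natCast, zpow_natCast, pow_add]
      group

end NormalForm

theorem main (G : Type) [Group G] (hfg : Group.FG G) (φ : G →* Multiplicative ℤ)
    (hφ : Function.Surjective φ) (hfree : IsFreeGroup φ.ker) :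
    ∃ (H : Type) (_ : Group H) (ψ : H →* Multiplicative ℤ) (n : ℕ),
      Function.Surjective ψ ∧ Nonempty (ψ.ker ≃* FreeGroup (Fin n)) ∧
      ∃ f : G →* H, Function.Injective f := by
  classical
  obtain ⟨t, ht⟩ := hφ (Multiplicative.ofAdd 1)
  obtain ⟨X, ⟨b⟩⟩ := hfree.nonempty_basis
  let Θ : MulAut φ.ker := MulAut.conjNormal t
  have hΘ : ∀ x : φ.ker, φ.ker.subtype (Θ x) = t * φ.ker.subtype x * t⁻¹ := fun x =>
    MulAut.conjNormal_apply t x
  have hφt : ∀ n : ℤ, φ (t ^ n) = Multiplicative.ofAdd n := by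
    intro n; rw [map_zpow, ht, ← ofAdd_zsmul]; simp
  -- a finite set of basis elements which generates together with `t`
  obtain ⟨A, hA⟩ := hfg.out
  have hfk : ∀ g : G, g * (t ^ (φ g).toAdd)⁻¹ ∈ φ.ker := by
    intro g
    rw [MonoidHom.mem_ker, map_mul, map_inv, hφt, ofAdd_toAdd, mul_inv_cancel]
  obtain ⟨S, hS⟩ := exists_supp_finset b A (fun g => (⟨_, hfk g⟩ : φ.ker))
  let a : FreeGroup (S ⊕ Unit) →* G :=
    FreeGroup.lift (Sum.elim (fun x => ((b x : φ.ker) : G)) (fun _ => t))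
  have ha_x : ∀ x : S, a (FreeGroup.of (Sum.inl x)) = ((b x : φ.ker) : G) := by
    intro x; simp [a]
  have ha_t : a T = t := by simp [a, T]
  have ha : Function.Surjective a := by
    rw [← MonoidHom.range_eq_top, eq_top_iff, ← hA, Subgroup.closure_le]
    intro g hg
    have h1 : φ.ker.subtype ⟨_, hfk g⟩ ∈ a.range := by
      obtain ⟨w, hw⟩ := hS g hg
      rw [← hw]
      have h2 : (φ.ker.subtype.comp (incl b S)) = a.comp (FreeGroup.map Sum.inl) := by
        ext x
        show ((incl b S (FreeGroup.of x) : φ.ker) : G) = a (FreeGroup.map Sum.inl (FreeGroup.of x))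
        rw [incl_of]
        simp [ha_x]
      have h3 := DFunLike.congr_fun h2 w
      exact ⟨_, h3.symm⟩
    have h4 : g = φ.ker.subtype ⟨_, hfk g⟩ * t ^ (φ g).toAdd := by simp
    rw [SetLike.mem_coe, h4]
    have hT : t ∈ a.range := ⟨T, ha_t⟩
    exact Subgroup.mul_mem _ h1 (Subgroup.zpow_mem _ hT _)
  -- the retraction of the big groups
  have hρ : ∀ (X₀ : Finset X) (z : PH X₀),
      rho (Psi b Θ X₀) (φ.ker.subtype.comp (incl b X₀)) t (PhiA b Θ X₀ z) =
      t * rho (Psi b Θ X₀) (φ.ker.subtype.comp (incl b X₀)) t z * t⁻¹ := by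
    intro X₀ z
    apply rho_Phi
    intro x hx
    show φ.ker.subtype (incl b X₀ (Psi b Θ X₀ (FreeGroup.of x))) =
      t * φ.ker.subtype (incl b X₀ (FreeGroup.of x)) * t⁻¹
    rw [Psi_spec b Θ X₀ x hx, incl_of, hΘ]
  have hρq : ∀ (X₀ : Finset X) (hSX : S ⊆ X₀) (r : FreeGroup (S × ℕ)),
      rho (Psi b Θ X₀) (φ.ker.subtype.comp (incl b X₀)) t (q₀ b Θ hSX r) =
      φ.ker.subtype (q b Θ S r) := by
    intro X₀ hSX r
    have h1 : (rho (Psi b Θ X₀) (φ.ker.subtype.comp (incl b X₀)) t).comp (q₀ b Θ hSX) =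
        φ.ker.subtype.comp (q b Θ S) := by
      ext ⟨x, j⟩
      show rho (Psi b Θ X₀) (φ.ker.subtype.comp (incl b X₀)) t
          (q₀ b Θ hSX (FreeGroup.of (x, j))) = φ.ker.subtype (q b Θ S (FreeGroup.of (x, j)))
      rw [q₀_of, q_of, ← zpow_natCast, ← zpow_natCast, conj_zpow _ _ t (hρ X₀),
        conj_zpow Θ _ t hΘ, rho_x]
      show t ^ (j : ℤ) * φ.ker.subtype (incl b X₀ (FreeGroup.of _)) * _ = _
      rw [incl_of]
    exact DFunLike.congr_fun h1 r
  obtain ⟨X₀, hSX, hgood⟩ := exists_good b Θ S (by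
    intro X₀ hSX r hr
    have h1 := hρq X₀ hSX r
    rw [hr, map_one] at h1
    exact (Subgroup.subtype_injective _ (by rw [← h1, map_one])))
  -- the big group
  let θ : Multiplicative ℤ →* MulAut (PH X₀) := zpowersHom _ (PhiA b Θ X₀)
  have hθ : ∀ n : ℤ, θ (Multiplicative.ofAdd n) = PhiA b Θ X₀ ^ n := by
    intro n; rfl
  let H := SemidirectProduct (PH X₀) (Multiplicative ℤ) θ
  let R : H →* G := SemidirectProduct.lift
    (rho (Psi b Θ X₀) (φ.ker.subtype.comp (incl b X₀)) t) (zpowersHom G t) (by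
      intro g
      ext1 z
      show rho (Psi b Θ X₀) (φ.ker.subtype.comp (incl b X₀)) t
        ((PhiA b Θ X₀ ^ (g.toAdd)) (FreeGroup.of z)) = t ^ g.toAdd * _ * (t ^ g.toAdd)⁻¹
      exact conj_zpow _ _ t (hρ X₀) _ _)
  have hR1 : ∀ z, R (SemidirectProduct.inl z) =
      rho (Psi b Θ X₀) (φ.ker.subtype.comp (incl b X₀)) t z := fun z =>
    SemidirectProduct.lift_inl _ _ _ z
  have hR2 : ∀ z, R (SemidirectProduct.inr z) = zpowersHom G t z := fun z =>
    SemidirectProduct.lift_inr _ _ _ z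
  let a' : FreeGroup (S ⊕ Unit) →* H :=
    FreeGroup.lift (Sum.elim
      (fun x => SemidirectProduct.inl (gx (⟨x.1, hSX x.2⟩ : X₀)))
      (fun _ => SemidirectProduct.inr (Multiplicative.ofAdd 1)))
  have ha'_x : ∀ x : S, a' (FreeGroup.of (Sum.inl x)) =
      SemidirectProduct.inl (gx (⟨x.1, hSX x.2⟩ : X₀)) := by
    intro x; simp [a']
  have ha'_t : a' T = SemidirectProduct.inr (Multiplicative.ofAdd 1) := by simp [a', T]
  have hRa : ∀ w, R (a' w) = a w := by
    intro w
    have h1 : R.comp a' = a := by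
      ext z
      rcases z with x | ⟨⟩
      · show R (a' (FreeGroup.of (Sum.inl x))) = a (FreeGroup.of (Sum.inl x))
        rw [ha'_x, ha_x, hR1, rho_x]
        show φ.ker.subtype (incl b X₀ (FreeGroup.of _)) = _
        rw [incl_of]; rfl
      · show R (a' T) = a T
        rw [ha'_t, ha_t, hR2]
        show t ^ (1 : ℤ) = t
        rw [zpow_one]
    exact DFunLike.congr_fun h1 w
  have haq : ∀ n, a (iota n) = φ.ker.subtype (q b Θ S n) := by
    intro n
    have h1 : a.comp iota = φ.ker.subtype.comp (q b Θ S) := by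
      ext ⟨x, j⟩
      show a (iota (FreeGroup.of (x, j))) = φ.ker.subtype (q b Θ S (FreeGroup.of (x, j)))
      rw [iota_of, q_of, ← zpow_natCast, ← zpow_natCast, conj_zpow Θ _ t hΘ, map_mul, map_mul,
        map_inv, map_zpow, ha_t, ha_x]
      rfl
    exact DFunLike.congr_fun h1 n
  have ha'q : ∀ n, a' (iota n) = SemidirectProduct.inl (q₀ b Θ hSX n) := by
    intro n
    have h1 : a'.comp iota = (SemidirectProduct.inl (φ := θ)).comp (q₀ b Θ hSX) := by
      ext1 ⟨x, j⟩
      show a' (iota (FreeGroup.of (x, j))) =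
        SemidirectProduct.inl (q₀ b Θ hSX (FreeGroup.of (x, j)))
      rw [iota_of, q₀_of, map_mul, map_mul, map_inv, map_pow, ha'_t, ha'_x]
      have h2 : (PhiA b Θ X₀ ^ j) = θ (Multiplicative.ofAdd (j : ℤ)) := by
        rw [hθ, zpow_natCast]
      rw [h2, SemidirectProduct.inl_aut, ← map_pow, ← map_inv]
      have h3 : (Multiplicative.ofAdd (1 : ℤ)) ^ j = Multiplicative.ofAdd (j : ℤ) := by
        rw [← ofAdd_nsmul]; simp
      rw [h3]
    exact DFunLike.congr_fun h1 n
  have hker : ∀ w, a w = 1 → a' w = 1 := by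
    intro w hw
    obtain ⟨m, n, k, rfl⟩ := normal_form w
    have h1 : a ((T ^ m)⁻¹ * iota n * T ^ k) = (t ^ m)⁻¹ * φ.ker.subtype (q b Θ S n) * t ^ k := by
      rw [map_mul, map_mul, map_inv, map_pow, map_zpow, ha_t, haq]
    rw [h1] at hw
    have h2 : φ ((t ^ m)⁻¹ * φ.ker.subtype (q b Θ S n) * t ^ k) = 1 := by rw [hw, map_one]
    have h3 : φ (φ.ker.subtype (q b Θ S n)) = 1 := (q b Θ S n).2
    rw [map_mul, map_mul, map_inv, h3, ← zpow_natCast, hφt, hφt, mul_one] at h2
    have h4 : k = m := by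
      have h5 := congrArg Multiplicative.toAdd h2
      simp only [toAdd_mul, toAdd_inv, toAdd_ofAdd, toAdd_one] at h5
      omega
    have h6 : φ.ker.subtype (q b Θ S n) = 1 := by
      have h7 : φ.ker.subtype (q b Θ S n) =
        t ^ m * ((t ^ m)⁻¹ * φ.ker.subtype (q b Θ S n) * t ^ k) * (t ^ k)⁻¹ := by group
      rw [h7, hw, h4, zpow_natCast]; simp
    have h8 : q b Θ S n = 1 := Subgroup.subtype_injective _ (by rw [h6, map_one])
    have h9 := hgood n h8
    rw [map_mul, map_mul, map_inv, map_pow, map_zpow, ha'q, h9, h4, map_one, mul_one,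
      zpow_natCast, inv_mul_cancel]
  choose s hs using ha
  let f : G →* H := MonoidHom.mk' (fun g => a' (s g)) (by
    intro g h
    have h1 : a ((s (g * h))⁻¹ * (s g * s h)) = 1 := by
      rw [map_mul, map_inv, map_mul, hs, hs, hs]; simp
    have h2 := hker _ h1
    rw [map_mul, map_inv, inv_mul_eq_one, map_mul] at h2
    exact h2)
  have hf : Function.Injective f := by
    intro g h hgh
    have h1 : R (f g) = g := by
      show R (a' (s g)) = g
      rw [hRa, hs]
    have h2 : R (f h) = h := by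
      show R (a' (s h)) = h
      rw [hRa, hs]
    rw [← h1, ← h2, hgh]
  refine ⟨H, inferInstance, SemidirectProduct.rightHom, Fintype.card (Gen X₀),
    SemidirectProduct.rightHom_surjective, ⟨?_⟩, f, hf⟩
  exact ((MulEquiv.subgroupCongr SemidirectProduct.range_inl_eq_ker_rightHom).symm.trans
    (MonoidHom.ofInjective SemidirectProduct.inl_injective).symm).trans
    (FreeGroup.freeGroupCongr (Fintype.equivFin (Gen X₀)))

end Pool.Agent.Helper867.Final
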