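import Mathlib

set_option autoImplicit false

/-!
Free groups: a subgroup `K` with `K ≤ ⁅K, ⊤⁆` is trivial (a form of residual nilpotence).
-/

namespace Pool.Agent.Helper867.Residual

open scoped commutatorElement

variable {α : Type}

theorem syl_step (g : FreeGroup α) (a : α) (ε : ℤ) (hε : ε ≠ 0)
    (L : List (α × ℤ)) (h0 : ∀ p ∈ L, p.2 ≠ 0)
    (hc : L.IsChain (fun p q => p.1 ≠ q.1))
    (hg : g = (L.map (fun p => (FreeGroup.of p.1) ^ p.2)).prod) :
    ∃ L' : List (α × ℤ), (∀ p ∈ L', p.2 ≠ 0) ∧ L'.IsChain (fun p q => p.1 ≠ q.1) ∧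
      (FreeGroup.of a) ^ ε * g = (L'.map (fun p => (FreeGroup.of p.1) ^ p.2)).prod := by
  classical
  rcases L with _ | ⟨⟨a', m⟩, L1⟩
  · refine ⟨[(a, ε)], ?_, ?_, ?_⟩
    · intro p hp; simp at hp; rw [hp]; exact hε
    · simp
    · simp [hg]
  · by_cases ha : a' = a
    · subst ha
      by_cases hm : ε + m = 0
      · refine ⟨L1, ?_, ?_, ?_⟩
        · intro p hp; exact h0 p (List.mem_cons_of_mem _ hp)
        · exact hc.tail
        · rw [hg]; simp only [List.map_cons, List.prod_cons]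
          rw [← mul_assoc, ← zpow_add, hm]; simp
      · refine ⟨(a', ε + m) :: L1, ?_, ?_, ?_⟩
        · intro p hp
          rcases List.mem_cons.mp hp with h | h
          · rw [h]; exact hm
          · exact h0 p (List.mem_cons_of_mem _ h)
        · rcases L1 with _ | ⟨q, L2⟩
          · simp
          · rw [List.isChain_cons_cons] at hc ⊢
            exact hc
        · rw [hg]; simp only [List.map_cons, List.prod_cons]
          rw [← mul_assoc, ← zpow_add]
    · refine ⟨(a, ε) :: (a', m) :: L1, ?_, ?_, ?_⟩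
      · intro p hp
        rcases List.mem_cons.mp hp with h | h
        · rw [h]; exact hε
        · exact h0 p h
      · rw [List.isChain_cons_cons]
        exact ⟨fun h => ha h.symm, hc⟩
      · rw [hg]; simp only [List.map_cons, List.prod_cons]

theorem exists_syllables (g : FreeGroup α) :
    ∃ L : List (α × ℤ), (∀ p ∈ L, p.2 ≠ 0) ∧ L.IsChain (fun p q => p.1 ≠ q.1) ∧
      g = (L.map (fun p => (FreeGroup.of p.1) ^ p.2)).prod := by
  classical
  have key : ∀ w : List (α × Bool), ∃ L : List (α × ℤ), (∀ p ∈ L, p.2 ≠ 0) ∧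
      L.IsChain (fun p q => p.1 ≠ q.1) ∧
      FreeGroup.mk w = (L.map (fun p => (FreeGroup.of p.1) ^ p.2)).prod := by
    intro w
    induction w with
    | nil => exact ⟨[], by simp, by simp, by simp [FreeGroup.one_eq_mk]⟩
    | cons x w ih =>
      obtain ⟨L, h0, hc, hg⟩ := ih
      obtain ⟨a, c⟩ := x
      cases c with
      | true =>
        obtain ⟨L', h1, h2, h3⟩ := syl_step _ a 1 (by norm_num) L h0 hc hg
        refine ⟨L', h1, h2, ?_⟩
        rw [← h3, zpow_one, FreeGroup.of, FreeGroup.mul_mk]; rfl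
      | false =>
        obtain ⟨L', h1, h2, h3⟩ := syl_step _ a (-1) (by norm_num) L h0 hc hg
        refine ⟨L', h1, h2, ?_⟩
        rw [← h3, zpow_neg_one, FreeGroup.of, FreeGroup.inv_mk, FreeGroup.mul_mk]; rfl
  have := key g.toWord
  rwa [FreeGroup.mk_toWord] at this

section Rep

variable (L : List (α × ℤ))

/-- position `i` of the list carries the letter `a` -/
def hit (a : α) (i : ℕ) : Prop := ∃ m, L[i]? = some (a, m)

open Classical in
/-- the nilpotent operator attached to the letter `a` -/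
noncomputable def Nop (a : α) : Module.End ℤ (ℕ → ℤ) where
  toFun f i := if hit L a i then f (i + 1) else 0
  map_add' f g := by ext i; by_cases h : hit L a i <;> simp [h]
  map_smul' c f := by ext i; by_cases h : hit L a i <;> simp [h]

theorem Nop_apply_hit (a : α) (f : ℕ → ℤ) (i : ℕ) (h : hit L a i) : Nop L a f i = f (i + 1) := by
  simp [Nop, h]

theorem Nop_apply_not (a : α) (f : ℕ → ℤ) (i : ℕ) (h : ¬ hit L a i) : Nop L a f i = 0 := by
  simp [Nop, h]

variable {L}

theorem Nop_sq (hc : L.IsChain (fun p q => p.1 ≠ q.1)) (a : α) : Nop L a * Nop L a = 0 := by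
  ext f i
  show Nop L a (Nop L a f) i = 0
  by_cases h1 : hit L a i
  · rw [Nop_apply_hit _ _ _ _ h1]
    apply Nop_apply_not
    rintro ⟨m', h2⟩
    obtain ⟨m, h1⟩ := h1
    rw [List.isChain_iff_getElem] at hc
    obtain ⟨hi1, hi1'⟩ := List.getElem?_eq_some_iff.mp h1
    obtain ⟨hi2, hi2'⟩ := List.getElem?_eq_some_iff.mp h2
    have := hc i hi2
    rw [hi1', hi2'] at this
    exact this rfl
  · exact Nop_apply_not _ _ _ _ h1

/-- the unipotent operator attached to the letter `a` -/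
noncomputable def Aop (hc : L.IsChain (fun p q => p.1 ≠ q.1)) (a : α) :
    (Module.End ℤ (ℕ → ℤ))ˣ where
  val := 1 + Nop L a
  inv := 1 - Nop L a
  val_inv := by
    have := Nop_sq hc a
    rw [add_mul, mul_sub, mul_sub, this]; simp
  inv_val := by
    have := Nop_sq hc a
    rw [sub_mul, mul_add, mul_add, this]; simp

theorem Aop_zpow (hc : L.IsChain (fun p q => p.1 ≠ q.1)) (a : α) (m : ℤ) :
    ((Aop hc a ^ m : (Module.End ℤ (ℕ → ℤ))ˣ) : Module.End ℤ (ℕ → ℤ)) = 1 + m • Nop L a := by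
  have hsq := Nop_sq hc a
  induction m using Int.induction_on with
  | zero => simp
  | succ n ih =>
    rw [zpow_add_one, Units.val_mul, ih]
    show (1 + (n : ℤ) • Nop L a) * (1 + Nop L a) = _
    rw [add_mul, mul_add, mul_add, smul_mul_assoc, smul_mul_assoc, hsq]
    simp [add_smul]
    abel
  | pred n ih =>
    rw [zpow_sub_one, Units.val_mul, ih]
    show (1 + (-(n : ℤ)) • Nop L a) * (1 - Nop L a) = _
    rw [add_mul, mul_sub, mul_sub, smul_mul_assoc, smul_mul_assoc, hsq]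
    simp [sub_smul]
    abel

/-- the unipotent representation -/
noncomputable def rep (hc : L.IsChain (fun p q => p.1 ≠ q.1)) :
    FreeGroup α →* (Module.End ℤ (ℕ → ℤ))ˣ := FreeGroup.lift (Aop hc)

theorem rep_suffix (hc : L.IsChain (fun p q => p.1 ≠ q.1)) (L2 : List (α × ℤ)) :
    ∀ L1 : List (α × ℤ), L = L1 ++ L2 → ∀ v : ℕ → ℤ,
      v = ((rep hc (L2.map (fun p => (FreeGroup.of p.1) ^ p.2)).prod :
        (Module.End ℤ (ℕ → ℤ))ˣ) : Module.End ℤ (ℕ → ℤ)) (Pi.single L.length 1) →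
      (∀ i < L1.length, v i = 0) ∧ v L1.length = (L2.map Prod.snd).prod := by
  induction L2 with
  | nil =>
    intro L1 hL v hv
    simp only [List.append_nil] at hL
    simp only [List.map_nil, List.prod_nil, map_one, Units.val_one, Module.End.one_apply] at hv
    subst hv; subst hL
    refine ⟨?_, ?_⟩
    · intro i hi
      rw [Pi.single_eq_of_ne (by omega)]
    · simp
  | cons p L3 ih =>
    intro L1 hL v hv
    obtain ⟨a, m⟩ := p
    obtain ⟨h1, h2⟩ := ih (L1 ++ [(a, m)]) (by simpa using hL) _ rfl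
    set w : ℕ → ℤ := ((rep hc (L3.map (fun p => (FreeGroup.of p.1) ^ p.2)).prod :
        (Module.End ℤ (ℕ → ℤ))ˣ) : Module.End ℤ (ℕ → ℤ)) (Pi.single L.length 1) with hw
    have hv' : v = (1 + m • Nop L a) w := by
      rw [hv, List.map_cons, List.prod_cons, map_mul, Units.val_mul, Module.End.mul_apply, ← hw]
      congr 1
      rw [map_zpow]
      unfold rep
      rw [FreeGroup.lift_apply_of, Aop_zpow]
    have hv2 : ∀ i, v i = w i + m * Nop L a w i := by
      intro i; rw [hv']; simp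
    simp only [List.length_append, List.length_cons, List.length_nil, zero_add] at h1 h2
    refine ⟨?_, ?_⟩
    · intro i hi
      rw [hv2, h1 i (by omega)]
      by_cases hh : hit L a i
      · rw [Nop_apply_hit _ _ _ _ hh, h1 (i + 1) (by omega)]; simp
      · rw [Nop_apply_not _ _ _ _ hh]; simp
    · rw [hv2, h1 _ (by omega)]
      have hh : hit L a L1.length := ⟨m, by rw [hL]; simp⟩
      rw [Nop_apply_hit _ _ _ _ hh, h2]
      simp

/-- operators lowering the filtration by `n` -/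
def Low (n : ℕ) (A : Module.End ℤ (ℕ → ℤ)) : Prop :=
  ∀ (f : ℕ → ℤ) (s : ℕ), (∀ i, s ≤ i → f i = 0) → ∀ i, s ≤ i + n → A f i = 0

theorem low_mul {n m : ℕ} {A B : Module.End ℤ (ℕ → ℤ)} (hA : Low n A) (hB : Low m B) :
    Low (n + m) (A * B) := by
  intro f s hf i hi
  show A (B f) i = 0
  apply hA (B f) (s - m) _ i (by omega)
  intro j hj
  exact hB f s hf j (by omega)

theorem low_add {n : ℕ} {A B : Module.End ℤ (ℕ → ℤ)} (hA : Low n A) (hB : Low n B) :
    Low n (A + B) := by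
  intro f s hf i hi
  show A f i + B f i = 0
  rw [hA f s hf i hi, hB f s hf i hi, add_zero]

theorem low_neg {n : ℕ} {A : Module.End ℤ (ℕ → ℤ)} (hA : Low n A) : Low n (-A) := by
  intro f s hf i hi
  show -(A f i) = 0
  rw [hA f s hf i hi, neg_zero]

theorem low_sub {n : ℕ} {A B : Module.End ℤ (ℕ → ℤ)} (hA : Low n A) (hB : Low n B) :
    Low n (A - B) := by
  rw [sub_eq_add_neg]; exact low_add hA (low_neg hB)

theorem low_mono {n m : ℕ} (h : m ≤ n) {A : Module.End ℤ (ℕ → ℤ)} (hA : Low n A) : Low m A := by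
  intro f s hf i hi
  exact hA f s hf i (by omega)

theorem low_one : Low 0 (1 : Module.End ℤ (ℕ → ℤ)) := by
  intro f s hf i hi
  exact hf i (by omega)

theorem low_Nop (a : α) : Low 1 (Nop L a) := by
  intro f s hf i hi
  by_cases h : hit L a i
  · rw [Nop_apply_hit _ _ _ _ h]; exact hf _ (by omega)
  · exact Nop_apply_not _ _ _ _ h

/-- elements acting trivially modulo `n` steps of the filtration -/
noncomputable def Hn (hc : L.IsChain (fun p q => p.1 ≠ q.1)) (n : ℕ) : Subgroup (FreeGroup α) where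
  carrier := {g | Low n ((rep hc g : Module.End ℤ (ℕ → ℤ)) - 1) ∧
    Low 0 (rep hc g : Module.End ℤ (ℕ → ℤ)) ∧ Low 0 (rep hc g⁻¹ : Module.End ℤ (ℕ → ℤ))}
  one_mem' := by
    refine ⟨?_, ?_, ?_⟩
    · simp only [map_one, Units.val_one, sub_self]
      intro f s hf i hi; rfl
    · simp only [map_one, Units.val_one]; exact low_one
    · simp only [inv_one, map_one, Units.val_one]; exact low_one
  mul_mem' := by
    rintro g h ⟨hg1, hg2, hg3⟩ ⟨hh1, hh2, hh3⟩
    refine ⟨?_, ?_, ?_⟩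
    · have e : ((rep hc (g * h) : Module.End ℤ (ℕ → ℤ)) - 1) =
        ((rep hc g : Module.End ℤ (ℕ → ℤ)) - 1) * (rep hc h : Module.End ℤ (ℕ → ℤ)) +
        ((rep hc h : Module.End ℤ (ℕ → ℤ)) - 1) := by
        rw [map_mul, Units.val_mul, sub_mul, one_mul]; abel
      rw [e]
      exact low_add (low_mul hg1 hh2) hh1
    · rw [map_mul, Units.val_mul]; exact low_mul hg2 hh2
    · rw [mul_inv_rev, map_mul, Units.val_mul]; exact low_mul hh3 hg3
  inv_mem' := by
    rintro g ⟨hg1, hg2, hg3⟩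
    refine ⟨?_, hg3, by rw [inv_inv]; exact hg2⟩
    have e : ((rep hc g⁻¹ : Module.End ℤ (ℕ → ℤ)) - 1) =
      -((rep hc g⁻¹ : Module.End ℤ (ℕ → ℤ)) * ((rep hc g : Module.End ℤ (ℕ → ℤ)) - 1)) := by
      rw [mul_sub, ← Units.val_mul, ← map_mul, inv_mul_cancel]
      simp
    rw [e]
    have := low_neg (low_mul hg3 hg1)
    simpa using this

theorem Hn_one (hc : L.IsChain (fun p q => p.1 ≠ q.1)) : Hn hc 1 = ⊤ := by
  rw [eq_top_iff, ← FreeGroup.closure_range_of, Subgroup.closure_le]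
  rintro _ ⟨a, rfl⟩
  have h1 : (rep hc (FreeGroup.of a) : Module.End ℤ (ℕ → ℤ)) = 1 + Nop L a := by
    unfold rep; rw [FreeGroup.lift_apply_of]; rfl
  have h2 : (rep hc (FreeGroup.of a)⁻¹ : Module.End ℤ (ℕ → ℤ)) = 1 - Nop L a := by
    unfold rep; rw [map_inv, FreeGroup.lift_apply_of]; rfl
  refine ⟨?_, ?_, ?_⟩
  · rw [h1]; simp only [add_sub_cancel_left]; exact low_Nop a
  · rw [h1]; exact low_add low_one (low_mono (by norm_num) (low_Nop a))
  · rw [h2]; exact low_sub low_one (low_mono (by norm_num) (low_Nop a))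

theorem Hn_zero_facts (hc : L.IsChain (fun p q => p.1 ≠ q.1)) (g : FreeGroup α) :
    g ∈ Hn hc 1 := by rw [Hn_one]; trivial

theorem Hn_comm (hc : L.IsChain (fun p q => p.1 ≠ q.1)) (n : ℕ) (K : Subgroup (FreeGroup α))
    (hK : K ≤ Hn hc n) : ⁅K, (⊤ : Subgroup (FreeGroup α))⁆ ≤ Hn hc (n + 1) := by
  rw [Subgroup.commutator_le]
  intro k hk g _
  obtain ⟨hk1, hk2, hk3⟩ := hK hk
  obtain ⟨hg1, hg2, hg3⟩ := Hn_zero_facts hc g
  obtain ⟨-, hc2, hc3⟩ := Hn_zero_facts hc ⁅k, g⁆
  refine ⟨?_, hc2, hc3⟩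
  have e : ((rep hc ⁅k, g⁆ : Module.End ℤ (ℕ → ℤ)) - 1) =
      (((rep hc k : Module.End ℤ (ℕ → ℤ)) - 1) * ((rep hc g : Module.End ℤ (ℕ → ℤ)) - 1) -
      ((rep hc g : Module.End ℤ (ℕ → ℤ)) - 1) * ((rep hc k : Module.End ℤ (ℕ → ℤ)) - 1)) *
      ((rep hc k⁻¹ : Module.End ℤ (ℕ → ℤ)) * (rep hc g⁻¹ : Module.End ℤ (ℕ → ℤ))) := by
    have e1 : (((rep hc k : Module.End ℤ (ℕ → ℤ)) - 1) * ((rep hc g : Module.End ℤ (ℕ → ℤ)) - 1) -
      ((rep hc g : Module.End ℤ (ℕ → ℤ)) - 1) * ((rep hc k : Module.End ℤ (ℕ → ℤ)) - 1)) =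
      (rep hc k : Module.End ℤ (ℕ → ℤ)) * (rep hc g : Module.End ℤ (ℕ → ℤ)) -
      (rep hc g : Module.End ℤ (ℕ → ℤ)) * (rep hc k : Module.End ℤ (ℕ → ℤ)) := by
      noncomm_ring
    rw [e1, sub_mul]
    simp only [← Units.val_mul, ← map_mul]
    have e2 : g * k * (k⁻¹ * g⁻¹) = 1 := by group
    have e3 : k * g * (k⁻¹ * g⁻¹) = ⁅k, g⁆ := by rw [commutatorElement_def]; group
    rw [e2, e3]; simp
  rw [e]
  have h1 : Low (n + 1) (((rep hc k : Module.End ℤ (ℕ → ℤ)) - 1) *
      ((rep hc g : Module.End ℤ (ℕ → ℤ)) - 1)) := low_mul hk1 hg1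
  have h2 : Low (n + 1) (((rep hc g : Module.End ℤ (ℕ → ℤ)) - 1) *
      ((rep hc k : Module.End ℤ (ℕ → ℤ)) - 1)) := by
    have := low_mul hg1 hk1
    rwa [add_comm] at this
  have h3 := low_mul (low_sub h1 h2) (low_mul hk3 hg3)
  simpa using h3

end Rep

theorem eq_bot_of_le_commutator (K : Subgroup (FreeGroup α))
    (hK : K ≤ ⁅K, (⊤ : Subgroup (FreeGroup α))⁆) : K = ⊥ := by
  classical
  rw [eq_bot_iff]
  intro g hg
  rw [Subgroup.mem_bot]
  by_contra hne
  obtain ⟨L, h0, hc, hL⟩ := exists_syllables g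
  have hall : ∀ n, K ≤ Hn hc (n + 1) := by
    intro n
    induction n with
    | zero => rw [zero_add, Hn_one]; exact le_top
    | succ n ih => exact hK.trans (Hn_comm hc (n + 1) K ih)
  have hlen : L.length ≠ 0 := by
    intro h
    rw [List.length_eq_zero_iff] at h
    rw [h] at hL
    exact hne (by simpa using hL)
  obtain ⟨hlow, -, -⟩ := hall L.length hg
  have h1 := hlow (Pi.single L.length 1) (L.length + 1) (by
    intro i hi; rw [Pi.single_eq_of_ne (by omega)]) 0 (by omega)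
  have h2 := (rep_suffix hc L [] (by simp) _ rfl).2
  rw [← hL] at h2
  have h3 : ((rep hc g : Module.End ℤ (ℕ → ℤ)) - 1) (Pi.single L.length 1) 0 =
      (rep hc g : Module.End ℤ (ℕ → ℤ)) (Pi.single L.length 1) 0 -
        (Pi.single L.length 1 : ℕ → ℤ) 0 := rfl
  rw [h3] at h1
  have h4 : (Pi.single L.length 1 : ℕ → ℤ) 0 = 0 := by
    rw [Pi.single_eq_of_ne (by omega)]
  rw [h4, sub_zero] at h1
  simp only [List.length_nil] at h2
  rw [h1] at h2
  have h5 : (L.map Prod.snd).prod ≠ 0 := by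
    rw [Ne, List.prod_eq_zero_iff]
    intro h
    rw [List.mem_map] at h
    obtain ⟨p, hp, hp0⟩ := h
    exact h0 p hp hp0
  exact h5 h2.symm

end Pool.Agent.Helper867.Residual
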