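import Mathlib

set_option autoImplicit false

/-!
Reidemeister-Schreier with control of the basis: if a subgroup `P` of a free group contains some
members of a free basis, then `P` has a free basis containing these members.
-/

namespace Pool.Agent.Helper867.Schreier

open Function

universe u v

variable {E : Type u} {F : Type v} [Group F]

theorem closure_range_basis (b : FreeGroupBasis E F) :
    Subgroup.closure (Set.range b) = ⊤ := by
  rw [eq_top_iff]
  intro f _
  have h : ∀ w : FreeGroup E, b.repr.symm w ∈ Subgroup.closure (Set.range b) := by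
    intro w
    induction w using FreeGroup.induction_on with
    | C1 => simp
    | of x => exact Subgroup.subset_closure ⟨x, rfl⟩
    | inv_of x hx => rw [map_inv]; exact Subgroup.inv_mem _ hx
    | mul x y hx hy => rw [map_mul]; exact Subgroup.mul_mem _ hx hy
  have := h (b.repr f)
  simpa using this

/-- word length with respect to a basis -/
noncomputable def len (b : FreeGroupBasis E F) (f : F) : ℕ := by
  classical exact (b.repr f).toWord.length

theorem exists_shorter (b : FreeGroupBasis E F) (f : F) (hf : f ≠ 1) :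
    ∃ (e : E) (f' : F), len b f' < len b f ∧ (f = b e * f' ∨ f = (b e)⁻¹ * f') := by
  classical
  unfold len
  set w := b.repr f with hw
  have hw1 : w ≠ 1 := by
    intro h; apply hf
    have := congrArg b.repr.symm h
    simpa [hw] using this
  rcases hL : w.toWord with _ | ⟨⟨e, c⟩, L⟩
  · exfalso; exact hw1 (FreeGroup.toWord_eq_nil_iff.mp hL)
  · refine ⟨e, b.repr.symm (FreeGroup.mk L), ?_, ?_⟩
    · have h1 : (FreeGroup.mk L).toWord.length ≤ L.length := by
        have := FreeGroup.norm_mk_le (L₁ := L)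
        simpa [FreeGroup.norm] using this
      simp only [MulEquiv.apply_symm_apply, List.length_cons]
      omega
    · have hf' : f = b.repr.symm w := by simp [hw]
      have hw2 : w = FreeGroup.mk ((e, c) :: L) := by
        rw [← hL]; exact FreeGroup.mk_toWord.symm
      have hw3 : FreeGroup.mk ((e, c) :: L) = FreeGroup.mk [(e, c)] * FreeGroup.mk L := by
        rw [FreeGroup.mul_mk]; rfl
      cases c with
      | true =>
        left
        rw [hf', hw2, hw3, map_mul]; rfl
      | false =>
        right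
        have : (FreeGroup.mk [(e, false)] : FreeGroup E) = (FreeGroup.of e)⁻¹ := by
          rw [FreeGroup.of, FreeGroup.inv_mk]; rfl
        rw [hf', hw2, hw3, map_mul, this, map_inv]; rfl

theorem exists_parent (b : FreeGroupBasis E F) (P : Subgroup F) :
    ∃ d : F ⧸ P → ℕ, ∀ q : F ⧸ P, q ≠ ((1 : F) : F ⧸ P) →
      ∃ (g : F) (q' : F ⧸ P), d q' < d q ∧ q = g • q' ∧ (∃ e, g = b e ∨ g = (b e)⁻¹) := by
  classical
  have hex : ∀ q : F ⧸ P, ∃ n : ℕ, ∃ f : F, (f : F ⧸ P) = q ∧ len b f = n := by
    intro q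
    obtain ⟨f, hf⟩ := QuotientGroup.mk_surjective q
    exact ⟨_, f, hf, rfl⟩
  refine ⟨fun q => Nat.find (hex q), ?_⟩
  intro q hq
  obtain ⟨f, hf, hlen⟩ := Nat.find_spec (hex q)
  have hf1 : f ≠ 1 := by
    rintro rfl; exact hq hf.symm
  obtain ⟨e, f', hlt, hor⟩ := exists_shorter b f hf1
  have hd : Nat.find (hex (f' : F ⧸ P)) ≤ len b f' := Nat.find_le ⟨f', rfl, rfl⟩
  rcases hor with h | h
  · refine ⟨b e, (f' : F ⧸ P), ?_, ?_, e, Or.inl rfl⟩
    · show Nat.find (hex (f' : F ⧸ P)) < Nat.find (hex q)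
      omega
    · rw [← hf, h]; rfl
  · refine ⟨(b e)⁻¹, (f' : F ⧸ P), ?_, ?_, e, Or.inr rfl⟩
    · show Nat.find (hex (f' : F ⧸ P)) < Nat.find (hex q)
      omega
    · rw [← hf, h]; rfl

theorem exists_section (b : FreeGroupBasis E F) (P : Subgroup F) :
    ∃ s : F ⧸ P → F, s ((1 : F) : F ⧸ P) = 1 ∧ (∀ q, ((s q : F) : F ⧸ P) = q) ∧
      ∀ C : F ⧸ P → Prop, C ((1 : F) : F ⧸ P) →
        (∀ q e, C q → s (b e • q) = b e * s q → C (b e • q)) →
        (∀ q e, C q → s ((b e)⁻¹ • q) = (b e)⁻¹ * s q → C ((b e)⁻¹ • q)) → ∀ q, C q := by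
  classical
  obtain ⟨d, hd⟩ := exists_parent b P
  choose! g q' hlt hq hg using hd
  let s : F ⧸ P → F := fun q => (measure d).wf.fix
    (fun q (rec : ∀ y, d y < d q → F) =>
      if h : q = ((1 : F) : F ⧸ P) then (1 : F) else g q * rec (q' q) (hlt q h)) q
  have hs1 : s ((1 : F) : F ⧸ P) = 1 := by
    show (measure d).wf.fix _ _ = _
    rw [WellFounded.fix_eq]; simp
  have hs2 : ∀ q, q ≠ ((1 : F) : F ⧸ P) → s q = g q * s (q' q) := by
    intro q h
    show (measure d).wf.fix _ _ = _
    rw [WellFounded.fix_eq]; simp only [h, dite_false]; rfl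
  refine ⟨s, hs1, ?_, ?_⟩
  · intro q
    induction q using (measure d).wf.induction with
    | _ q ih =>
      by_cases h : q = ((1 : F) : F ⧸ P)
      · rw [h, hs1]
      · rw [hs2 q h]
        have := ih (q' q) (hlt q h)
        conv_rhs => rw [hq q h, ← this]
        rfl
  · intro C h1 hpos hneg q
    induction q using (measure d).wf.induction with
    | _ q ih =>
      by_cases h : q = ((1 : F) : F ⧸ P)
      · rw [h]; exact h1
      · have hC := ih (q' q) (hlt q h)
        have hsq := hs2 q h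
        obtain ⟨e, he | he⟩ := hg q h
        · have hqq : q = b e • q' q := by rw [← he]; exact hq q h
          rw [hqq]
          apply hpos _ _ hC
          rw [← hqq, ← he]; exact hsq
        · have hqq : q = (b e)⁻¹ • q' q := by rw [← he]; exact hq q h
          rw [hqq]
          apply hneg _ _ hC
          rw [← hqq, ← he]; exact hsq

section Main

variable (b : FreeGroupBasis E F) (P : Subgroup F) (s : F ⧸ P → F)

/-- the non-tree edges of the Schreier graph -/
abbrev NT : Type (max u v) := {z : (F ⧸ P) × E // s (b z.2 • z.1) ≠ b z.2 * s z.1}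

open Classical in
/-- label of an edge -/
noncomputable def lab (q : F ⧸ P) (e : E) : FreeGroup (NT b P s) :=
  if h : s (b e • q) ≠ b e * s q then FreeGroup.of ⟨(q, e), h⟩ else 1

/-- the action of the free group on `cosets × free group on non-tree edges` -/
noncomputable def act : F →* Equiv.Perm ((F ⧸ P) × FreeGroup (NT b P s)) :=
  b.lift (fun e =>
    { toFun := fun z => (b e • z.1, lab b P s z.1 e * z.2)
      invFun := fun z => ((b e)⁻¹ • z.1, (lab b P s ((b e)⁻¹ • z.1) e)⁻¹ * z.2)
      left_inv := by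
        intro z; ext1
        · simp
        · simp
      right_inv := by
        intro z; ext1
        · simp
        · simp })

theorem act_basis (e : E) (z : (F ⧸ P) × FreeGroup (NT b P s)) :
    act b P s (b e) z = (b e • z.1, lab b P s z.1 e * z.2) := by
  unfold act
  rw [FreeGroupBasis.lift_apply_apply]
  rw [FreeGroupBasis.repr_apply_coe, FreeGroup.lift_apply_of]
  rfl

theorem act_basis_inv (e : E) (z : (F ⧸ P) × FreeGroup (NT b P s)) :
    act b P s (b e)⁻¹ z = ((b e)⁻¹ • z.1, (lab b P s ((b e)⁻¹ • z.1) e)⁻¹ * z.2) := by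
  have h : act b P s (b e) ((b e)⁻¹ • z.1, (lab b P s ((b e)⁻¹ • z.1) e)⁻¹ * z.2) = z := by
    rw [act_basis]; ext1 <;> simp
  rw [map_inv]
  rw [Equiv.Perm.inv_eq_iff_eq]
  exact h.symm

/-- induction over a group generated by the basis -/
theorem basis_induction {C : F → Prop} (h1 : C 1) (hb : ∀ e, C (b e)) (hbi : ∀ e, C (b e)⁻¹)
    (hm : ∀ x y, C x → C y → C (x * y)) : ∀ f, C f := by
  have h : ∀ w : FreeGroup E, C (b.repr.symm w) := by
    intro w
    induction w using FreeGroup.induction_on with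
    | C1 => simpa using h1
    | of x => exact hb x
    | inv_of x hx => rw [map_inv]; exact hbi x
    | mul x y hx hy => rw [map_mul]; exact hm _ _ hx hy
  intro f
  simpa using h (b.repr f)

theorem act_fst (f : F) : ∀ z, (act b P s f z).1 = f • z.1 := by
  refine basis_induction b (C := fun f => ∀ z, (act b P s f z).1 = f • z.1) ?_ ?_ ?_ ?_ f
  · intro z; simp
  · intro e z; rw [act_basis]
  · intro e z; rw [act_basis_inv]
  · intro x y hx hy z
    rw [map_mul, Equiv.Perm.mul_apply, hx, hy, mul_smul]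

theorem act_right (f : F) : ∀ q γ γ', act b P s f (q, γ * γ') =
    ((act b P s f (q, γ)).1, (act b P s f (q, γ)).2 * γ') := by
  refine basis_induction b (C := fun f => ∀ q γ γ', act b P s f (q, γ * γ') =
    ((act b P s f (q, γ)).1, (act b P s f (q, γ)).2 * γ')) ?_ ?_ ?_ ?_ f
  · intro q γ γ'; simp
  · intro e q γ γ'; simp [act_basis, mul_assoc]
  · intro e q γ γ'; rw [act_basis_inv, act_basis_inv]; simp only [mul_assoc]
  · intro x y hx hy q γ γ'
    simp only [map_mul, Equiv.Perm.mul_apply]
    rw [hy q γ γ']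
    rw [hx _ _ γ']

/-- the map from the free group on non-tree edges to the subgroup -/
noncomputable def θ : FreeGroup (NT b P s) →* F :=
  FreeGroup.lift (fun z => (s (b z.1.2 • z.1.1))⁻¹ * (b z.1.2 * s z.1.1))

theorem θ_lab (q : F ⧸ P) (e : E) :
    θ b P s (lab b P s q e) = (s (b e • q))⁻¹ * (b e * s q) := by
  unfold lab θ
  split_ifs with h
  · simp
  · push Not at h
    simp [h]

theorem J_act (f : F) : ∀ z, s (act b P s f z).1 * θ b P s (act b P s f z).2
    = f * (s z.1 * θ b P s z.2) := by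
  refine basis_induction b (C := fun f => ∀ z, s (act b P s f z).1 * θ b P s (act b P s f z).2
    = f * (s z.1 * θ b P s z.2)) ?_ ?_ ?_ ?_ f
  · intro z; simp
  · intro e z
    rw [act_basis]
    simp only [map_mul, θ_lab]
    group
  · intro e z
    rw [act_basis_inv]
    simp only [map_mul, map_inv, θ_lab]
    simp only [smul_inv_smul]
    group
  · intro x y hx hy z
    simp only [map_mul, Equiv.Perm.mul_apply]
    rw [hx, hy, mul_assoc]

variable {b P s}

theorem act_section (hs1 : s ((1 : F) : F ⧸ P) = 1)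
    (hs3 : ∀ C : F ⧸ P → Prop, C ((1 : F) : F ⧸ P) →
        (∀ q e, C q → s (b e • q) = b e * s q → C (b e • q)) →
        (∀ q e, C q → s ((b e)⁻¹ • q) = (b e)⁻¹ * s q → C ((b e)⁻¹ • q)) → ∀ q, C q) :
    ∀ q γ, act b P s (s q) (((1 : F) : F ⧸ P), γ) = (q, γ) := by
  apply hs3
  · intro γ; rw [hs1]; simp
  · intro q e hC h γ
    rw [h, map_mul, Equiv.Perm.mul_apply, hC, act_basis]
    unfold lab
    simp [h]
  · intro q e hC h γ
    rw [h, map_mul, Equiv.Perm.mul_apply, hC, act_basis_inv]
    unfold lab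
    simp [h]

theorem act_θ (hs1 : s ((1 : F) : F ⧸ P) = 1)
    (hs3 : ∀ C : F ⧸ P → Prop, C ((1 : F) : F ⧸ P) →
        (∀ q e, C q → s (b e • q) = b e * s q → C (b e • q)) →
        (∀ q e, C q → s ((b e)⁻¹ • q) = (b e)⁻¹ * s q → C ((b e)⁻¹ • q)) → ∀ q, C q)
    (γ : FreeGroup (NT b P s)) :
    ∀ γ', act b P s (θ b P s γ) (((1 : F) : F ⧸ P), γ') = (((1 : F) : F ⧸ P), γ * γ') := by
  have key : ∀ z : NT b P s, ∀ γ', act b P s (θ b P s (FreeGroup.of z)) (((1 : F) : F ⧸ P), γ')
      = (((1 : F) : F ⧸ P), FreeGroup.of z * γ') := by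
    intro z γ'
    have h1 : θ b P s (FreeGroup.of z) = (s (b z.1.2 • z.1.1))⁻¹ * (b z.1.2 * s z.1.1) := by
      unfold θ; simp
    rw [h1, map_mul, map_mul, map_inv, Equiv.Perm.mul_apply, Equiv.Perm.mul_apply,
      act_section hs1 hs3, act_basis, Equiv.Perm.inv_eq_iff_eq, act_section hs1 hs3]
    have h2 : lab b P s z.1.1 z.1.2 = FreeGroup.of z := by
      unfold lab
      rw [dif_pos z.2]
    rw [h2]
  induction γ using FreeGroup.induction_on with
  | C1 => intro γ'; simp
  | of z => exact key z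
  | inv_of z _ =>
    intro γ'
    rw [map_inv, map_inv, Equiv.Perm.inv_eq_iff_eq, key]
    simp
  | mul x y hx hy =>
    intro γ'
    rw [map_mul, map_mul, Equiv.Perm.mul_apply, hy, hx, mul_assoc]

theorem exists_basis (b : FreeGroupBasis E F) (P : Subgroup F) :
    ∃ (ι : Type (max u v)) (c : FreeGroupBasis ι P) (j : {e : E // b e ∈ P} → ι),
      Function.Injective j ∧ ∀ e, (c (j e) : F) = b e.1 := by
  classical
  obtain ⟨s, hs1, hs2, hs3⟩ := exists_section b P
  have hθP : ∀ γ, θ b P s γ ∈ P := by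
    intro γ
    have h1 := act_θ hs1 hs3 γ 1
    have h2 := act_fst b P s (θ b P s γ) (((1 : F) : F ⧸ P), 1)
    rw [h1] at h2
    simp only at h2
    have h3 : ((θ b P s γ : F) : F ⧸ P) = ((1 : F) : F ⧸ P) := by
      have : (θ b P s γ) • ((1 : F) : F ⧸ P) = ((θ b P s γ * 1 : F) : F ⧸ P) := rfl
      rw [this, mul_one] at h2
      exact h2.symm
    rw [QuotientGroup.eq] at h3
    simpa using h3
  let θ' : FreeGroup (NT b P s) →* P := (θ b P s).codRestrict P hθP
  have hinj : Function.Injective θ' := by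
    rw [injective_iff_map_eq_one]
    intro γ hγ
    have h0 : θ b P s γ = 1 := congrArg Subtype.val hγ
    have h1 := act_θ hs1 hs3 γ 1
    rw [h0] at h1
    simp only [map_one, Equiv.Perm.coe_one, id_eq, mul_one, Prod.mk.injEq, true_and] at h1
    exact h1.symm
  have hsurj : Function.Surjective θ' := by
    intro p
    have h1 := J_act b P s (p : F) (((1 : F) : F ⧸ P), 1)
    have h2 := act_fst b P s (p : F) (((1 : F) : F ⧸ P), 1)
    have h3 : (p : F) • ((1 : F) : F ⧸ P) = ((1 : F) : F ⧸ P) := by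
      have : (p : F) • ((1 : F) : F ⧸ P) = (((p : F) * 1 : F) : F ⧸ P) := rfl
      rw [this, mul_one, QuotientGroup.eq]
      simp
    rw [h2] at h1
    simp only [h3, hs1, map_one, mul_one, one_mul] at h1
    exact ⟨_, Subtype.ext h1⟩
  let e' : FreeGroup (NT b P s) ≃* P := MulEquiv.ofBijective θ' ⟨hinj, hsurj⟩
  have hfix : ∀ e : E, b e ∈ P → b e • ((1 : F) : F ⧸ P) = ((1 : F) : F ⧸ P) := by
    intro e he
    have : (b e : F) • ((1 : F) : F ⧸ P) = (((b e : F) * 1 : F) : F ⧸ P) := rfl
    rw [this, mul_one, QuotientGroup.eq]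
    simpa using he
  have hNT : ∀ e : E, b e ∈ P → s (b e • ((1 : F) : F ⧸ P)) ≠ b e * s ((1 : F) : F ⧸ P) := by
    intro e he h
    rw [hfix e he, hs1, mul_one] at h
    have h2 := congrArg b.repr h
    rw [map_one, FreeGroupBasis.repr_apply_coe] at h2
    exact FreeGroup.of_ne_one e h2.symm
  refine ⟨NT b P s, FreeGroupBasis.ofRepr e'.symm,
    fun e => ⟨(((1 : F) : F ⧸ P), e.1), hNT e.1 e.2⟩, ?_, ?_⟩
  · intro e1 e2 h
    apply Subtype.ext
    have := congrArg (fun z : NT b P s => z.1.2) h
    simpa using this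
  · intro e
    show ((e'.symm.symm (FreeGroup.of _) : P) : F) = b e.1
    rw [MulEquiv.symm_symm]
    show θ b P s (FreeGroup.of _) = b e.1
    unfold θ
    rw [FreeGroup.lift_apply_of]
    simp only
    rw [hfix e.1 e.2, hs1]
    simp

end Main

end Pool.Agent.Helper867.Schreier
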